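import Mathlib
import Pool.Agent.V11145.InterA

/-!
# MP_e9f532_co : distinct pairwise intersections in an antichain

`f n` is the maximum number of distinct pairwise intersections of the members of an antichain of
subsets of an `n`-element set.  We show that
`2^n - f n ≤ 2^(⌊n/2⌋ + 4 ⌈log₂ (n+1)⌉^2)`, which, with the known bound `2^n - f n ≥ √(2^n)`,
gives `2^n - f n = 2^((1/2 + o(1)) n)`.
-/

namespace Pool.Agent.Results.MP_e9f532_co.ExponentHalf

open Finset Filter Topology Pool.Agent.V11145.Inter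

open Classical in
/-- `f n` is the maximum of `|I(A)|` over all antichains `A` of subsets of `Fin n`, where
`inters A` is the family of all sets `X ∩ Y` with `X`, `Y` different members of `A`. -/
noncomputable def f (n : ℕ) : ℕ :=
  ((univ : Finset (Finset (Finset (Fin n)))).filter
    (fun A : Finset (Finset (Fin n)) =>
      IsAntichain (· ⊆ ·) (A : Set (Finset (Fin n))))).sup
    (fun A : Finset (Finset (Fin n)) => (inters A).card)

theorem le_f (n : ℕ) (A : Finset (Finset (Fin n)))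
    (hA : IsAntichain (· ⊆ ·) (A : Set (Finset (Fin n)))) : (inters A).card ≤ f n := by
  classical
  unfold f
  exact Finset.le_sup (f := fun A : Finset (Finset (Fin n)) => (inters A).card)
    (by simpa using hA)

theorem f_attained (n : ℕ) : ∃ A : Finset (Finset (Fin n)),
    IsAntichain (· ⊆ ·) (A : Set (Finset (Fin n))) ∧ f n = (inters A).card := by
  classical
  unfold f
  obtain ⟨A, hA, hf⟩ := Finset.exists_mem_eq_sup
    ((univ : Finset (Finset (Finset (Fin n)))).filter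
      (fun A : Finset (Finset (Fin n)) => IsAntichain (· ⊆ ·) (A : Set (Finset (Fin n)))))
    ⟨∅, by simp⟩ (fun A : Finset (Finset (Fin n)) => (inters A).card)
  exact ⟨A, by simpa using hA, hf⟩

theorem lower (n : ℕ) : 2 ^ n ≤ f n + 2 ^ (n / 2 + 4 * (Nat.clog 2 (n + 1)) ^ 2) := by
  have hL : n + 1 ≤ 2 ^ Nat.clog 2 (n + 1) := Nat.le_pow_clog (by norm_num) _
  by_cases h3 : 3 ≤ Nat.clog 2 (n + 1)
  · obtain ⟨A, hA, hc⟩ := main_L (V := Fin n) (Nat.clog 2 (n + 1)) h3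
      (by rw [Fintype.card_fin]; exact hL)
    rw [Fintype.card_fin] at hc
    have := le_f n A hA
    omega
  · have hn : n + 1 ≤ 4 := by
      calc n + 1 ≤ 2 ^ Nat.clog 2 (n + 1) := hL
        _ ≤ 2 ^ 2 := Nat.pow_le_pow_right (by norm_num) (by omega)
        _ = 4 := by norm_num
    have hle : n ≤ n / 2 + 4 * (Nat.clog 2 (n + 1)) ^ 2 := by
      rcases Nat.eq_zero_or_pos n with h0 | h0
      · omega
      · have h1 : 1 ≤ Nat.clog 2 (n + 1) := by
          rcases Nat.eq_zero_or_pos (Nat.clog 2 (n + 1)) with h | h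
          · rw [h] at hL; omega
          · exact h
        have h2 : 1 ≤ (Nat.clog 2 (n + 1)) ^ 2 := Nat.one_le_pow _ _ h1
        omega
    have := Nat.pow_le_pow_right (n := 2) (by norm_num) hle
    omega

theorem upper' (n : ℕ) : f n ≤ 2 ^ n ∧ 2 ^ n ≤ (2 ^ n - f n) ^ 2 := by
  obtain ⟨A, hA, hf⟩ := f_attained n
  rw [hf]
  have h1 := (inters_le A hA).1
  have h2 := Pool.Agent.V11145.Inter.upper A hA
  rw [Fintype.card_fin] at h1 h2
  exact ⟨by omega, h2⟩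

theorem clog_le (n : ℕ) : (Nat.clog 2 (n + 1) : ℝ) ≤ 2 * Real.logb 2 (n + 2) := by
  have h1 : Nat.clog 2 (n + 1) ≤ Nat.log 2 (n + 2) + 1 := by
    have : Nat.clog 2 (n + 1) ≤ Nat.clog 2 (n + 2) := Nat.clog_mono_right 2 (by omega)
    refine this.trans ?_
    rw [Nat.clog_le_iff_le_pow (by norm_num)]
    exact (Nat.lt_pow_succ_log_self (by norm_num) _).le
  have h2 : ((Nat.log 2 (n + 2) : ℕ) : ℝ) ≤ Real.logb 2 ((n + 2 : ℕ) : ℝ) := by
    exact Real.natLog_le_logb (n + 2) 2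
  have h3 : (1 : ℝ) ≤ Real.logb 2 ((n + 2 : ℕ) : ℝ) := by
    rw [Real.le_logb_iff_rpow_le (by norm_num) (by positivity)]
    push_cast
    have : (0 : ℝ) ≤ n := Nat.cast_nonneg n
    norm_num
  have h4 : ((Nat.clog 2 (n + 1) : ℕ) : ℝ) ≤ (Nat.log 2 (n + 2) : ℝ) + 1 := by exact_mod_cast h1
  push_cast at h2 h3
  linarith

theorem small_term : Tendsto (fun n : ℕ => 4 * ((Nat.clog 2 (n + 1) : ℕ) : ℝ) ^ 2 / (n : ℝ))
    atTop (𝓝 0) := by
  have h0 : Tendsto (fun x : ℝ => Real.log x ^ 2 / x) atTop (𝓝 0) :=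
    (Real.isLittleO_pow_log_id_atTop (n := 2)).tendsto_div_nhds_zero
  have h1 : Tendsto (fun n : ℕ => ((n : ℝ) + 2)) atTop atTop :=
    tendsto_atTop_add_const_right _ _ tendsto_natCast_atTop_atTop
  have h2 : Tendsto (fun n : ℕ => Real.log ((n : ℝ) + 2) ^ 2 / ((n : ℝ) + 2)) atTop (𝓝 0) :=
    h0.comp h1
  have h3 : Tendsto (fun n : ℕ => (48 / (Real.log 2) ^ 2) *
      (Real.log ((n : ℝ) + 2) ^ 2 / ((n : ℝ) + 2))) atTop (𝓝 0) := by
    simpa using h2.const_mul (48 / (Real.log 2) ^ 2)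
  refine squeeze_zero' (Eventually.of_forall fun n => by positivity) ?_ h3
  filter_upwards [eventually_ge_atTop 1] with n hn
  have hn' : (1 : ℝ) ≤ n := by exact_mod_cast hn
  have hc := clog_le n
  have hc0 : (0 : ℝ) ≤ (Nat.clog 2 (n + 1) : ℝ) := Nat.cast_nonneg _
  have hlog2 : 0 < Real.log 2 := Real.log_pos (by norm_num)
  have hsq : ((Nat.clog 2 (n + 1) : ℕ) : ℝ) ^ 2 ≤ (2 * Real.logb 2 (n + 2)) ^ 2 :=
    pow_le_pow_left₀ hc0 hc 2
  have e1 : (2 * Real.logb 2 ((n : ℝ) + 2)) ^ 2 =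
      4 / (Real.log 2) ^ 2 * Real.log ((n : ℝ) + 2) ^ 2 := by
    unfold Real.logb
    field_simp
    norm_num
    ring
  rw [e1] at hsq
  have hl0 : 0 ≤ Real.log ((n : ℝ) + 2) ^ 2 := by positivity
  rw [div_le_iff₀ (by linarith)]
  have e2 : (48 / (Real.log 2) ^ 2) * (Real.log ((n : ℝ) + 2) ^ 2 / ((n : ℝ) + 2)) * n =
      (16 / (Real.log 2) ^ 2 * Real.log ((n : ℝ) + 2) ^ 2) * (3 * n / ((n : ℝ) + 2)) := by
    field_simp
    ring
  rw [e2]
  have e3 : (1 : ℝ) ≤ 3 * n / ((n : ℝ) + 2) := by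
    rw [le_div_iff₀ (by linarith)]
    linarith
  have e4 : 0 ≤ 16 / (Real.log 2) ^ 2 * Real.log ((n : ℝ) + 2) ^ 2 := by positivity
  calc 4 * ((Nat.clog 2 (n + 1) : ℕ) : ℝ) ^ 2
      ≤ 4 * (4 / (Real.log 2) ^ 2 * Real.log ((n : ℝ) + 2) ^ 2) := by linarith
    _ = 16 / (Real.log 2) ^ 2 * Real.log ((n : ℝ) + 2) ^ 2 := by ring
    _ ≤ _ := le_mul_of_one_le_right e4 e3

theorem limit : Tendsto (fun n : ℕ => Real.logb 2 ((2 : ℝ) ^ n - (f n : ℝ)) / (n : ℝ)) atTop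
    (𝓝 (1 / 2)) := by
  have hup : Tendsto (fun n : ℕ => (1 / 2 : ℝ) +
      4 * ((Nat.clog 2 (n + 1) : ℕ) : ℝ) ^ 2 / (n : ℝ)) atTop (𝓝 (1 / 2)) := by
    simpa using (tendsto_const_nhds (x := (1 / 2 : ℝ))).add small_term
  refine tendsto_of_tendsto_of_tendsto_of_le_of_le' tendsto_const_nhds hup ?_ ?_
  · filter_upwards [eventually_ge_atTop 1] with n hn
    have hn' : (0 : ℝ) < n := by exact_mod_cast hn
    obtain ⟨h1, h2⟩ := upper' n
    have h3 : (2 : ℝ) ^ n ≤ ((2 : ℝ) ^ n - (f n : ℝ)) ^ 2 := by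
      have : ((2 ^ n : ℕ) : ℝ) ≤ (((2 ^ n - f n) ^ 2 : ℕ) : ℝ) := by exact_mod_cast h2
      rw [Nat.cast_pow, Nat.cast_pow, Nat.cast_sub h1] at this
      simpa using this
    have h4 : (0 : ℝ) ≤ (2 : ℝ) ^ n - (f n : ℝ) := by
      have : ((f n : ℕ) : ℝ) ≤ ((2 ^ n : ℕ) : ℝ) := by exact_mod_cast h1
      push_cast at this
      linarith
    have h5 : (0 : ℝ) < (2 : ℝ) ^ n - (f n : ℝ) := by
      rcases h4.eq_or_lt with h | h
      · rw [← h] at h3
        have : (0 : ℝ) < (2 : ℝ) ^ n := by positivity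
        norm_num at h3
        linarith
      · exact h
    rw [le_div_iff₀ hn']
    have h6 : (n : ℝ) ≤ 2 * Real.logb 2 ((2 : ℝ) ^ n - (f n : ℝ)) := by
      have e1 : 2 * Real.logb 2 ((2 : ℝ) ^ n - (f n : ℝ)) =
          Real.logb 2 (((2 : ℝ) ^ n - (f n : ℝ)) ^ 2) := by
        rw [Real.logb_pow]; norm_num
      rw [e1, Real.le_logb_iff_rpow_le (by norm_num) (by positivity), Real.rpow_natCast]
      exact h3
    linarith
  · filter_upwards [eventually_ge_atTop 1] with n hn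
    have hn' : (0 : ℝ) < n := by exact_mod_cast hn
    obtain ⟨h1, h2⟩ := upper' n
    have h3 : (2 : ℝ) ^ n ≤ ((2 : ℝ) ^ n - (f n : ℝ)) ^ 2 := by
      have : ((2 ^ n : ℕ) : ℝ) ≤ (((2 ^ n - f n) ^ 2 : ℕ) : ℝ) := by exact_mod_cast h2
      rw [Nat.cast_pow, Nat.cast_pow, Nat.cast_sub h1] at this
      simpa using this
    have h4 : (0 : ℝ) ≤ (2 : ℝ) ^ n - (f n : ℝ) := by
      have : ((f n : ℕ) : ℝ) ≤ ((2 ^ n : ℕ) : ℝ) := by exact_mod_cast h1
      push_cast at this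
      linarith
    have h5 : (0 : ℝ) < (2 : ℝ) ^ n - (f n : ℝ) := by
      rcases h4.eq_or_lt with h | h
      · rw [← h] at h3
        have : (0 : ℝ) < (2 : ℝ) ^ n := by positivity
        norm_num at h3
        linarith
      · exact h
    have h6 : (2 : ℝ) ^ n - (f n : ℝ) ≤ (2 : ℝ) ^ (n / 2 + 4 * (Nat.clog 2 (n + 1)) ^ 2) := by
      have := lower n
      have h7 : ((2 ^ n : ℕ) : ℝ) ≤
          ((f n + 2 ^ (n / 2 + 4 * (Nat.clog 2 (n + 1)) ^ 2) : ℕ) : ℝ) := by exact_mod_cast this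
      push_cast at h7
      linarith
    rw [div_le_iff₀ hn']
    have h8 : Real.logb 2 ((2 : ℝ) ^ n - (f n : ℝ)) ≤
        ((n / 2 + 4 * (Nat.clog 2 (n + 1)) ^ 2 : ℕ) : ℝ) := by
      rw [Real.logb_le_iff_le_rpow (by norm_num) h5, Real.rpow_natCast]
      exact h6
    have h9 : ((n / 2 : ℕ) : ℝ) ≤ (n : ℝ) / 2 := by
      have := Nat.cast_div_le (α := ℝ) (m := n) (n := 2)
      simpa using this
    have h10 : (1 / 2 + 4 * ((Nat.clog 2 (n + 1) : ℕ) : ℝ) ^ 2 / (n : ℝ)) * (n : ℝ) =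
        (n : ℝ) / 2 + 4 * ((Nat.clog 2 (n + 1) : ℕ) : ℝ) ^ 2 := by
      field_simp
    rw [h10]
    push_cast at h8
    linarith

/-- The number of subsets of an `n`-set missed by the pairwise intersections of the best antichain
is between `√(2^n)` (known) and `2^(⌊n/2⌋ + 4 ⌈log₂(n+1)⌉^2)`; so it is `2^((1/2+o(1)) n)`. -/
theorem result :
    (∀ n : ℕ, 2 ^ n ≤ f n + 2 ^ (n / 2 + 4 * (Nat.clog 2 (n + 1)) ^ 2)) ∧
    (∀ n : ℕ, f n ≤ 2 ^ n ∧ 2 ^ n ≤ (2 ^ n - f n) ^ 2) ∧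
    Tendsto (fun n : ℕ => Real.logb 2 ((2 : ℝ) ^ n - (f n : ℝ)) / (n : ℝ)) atTop
      (𝓝 (1 / 2)) :=
  ⟨lower, upper', limit⟩

end Pool.Agent.Results.MP_e9f532_co.ExponentHalf
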